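import Pool.Agent.Lib.MP_d585ae_al.Tile.DatOK
import Pool.Agent.Lib.MP_d585ae_al.Tile.Kram

/-!
# The braid group on four strands has a faithful representation by rational matrices
-/

namespace Pool.Agent.Results.MP_d585ae_al.BraidFour

open Pool.Agent.Lib.MP_d585ae_al.Tile

/-- **The braid group `B_4` is linear over `ℚ`.** Krammer's representation of `B_4`, specialised at
the rational numbers `q = 4/15` and `t = 625/2304`, is faithful; hence there is an injective
homomorphism from `B_4` to a group of matrices over the algebraic numbers. -/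
theorem result :
    (∃ ρ : Braid 4 →* GL (Pr 4) ℚ,
      (∀ k : Fin 3, ((ρ (PresentedGroup.of k) : GL (Pr 4) ℚ) : Matrix (Pr 4) (Pr 4) ℚ) =
        krammer 4 (4 / 15) (625 / 2304) k) ∧ Function.Injective ρ) ∧
      ∃ m : ℕ, 1 ≤ m ∧ ∃ ρ : Braid 4 →* GL (Fin m) (AlgebraicClosure ℚ),
        Function.Injective ρ := by
  refine ⟨⟨kramRep, kramRep_of, kramRep_inj theData_OK⟩, 6, by norm_num, ?_⟩
  have h := faithful_of_OK theData_OK (u := u3) (by show (0 : ℚ) < 1 / 3; norm_num)
    (by show (1 / 3 : ℚ) ≠ 1; norm_num)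
  refine ⟨(Matrix.GeneralLinearGroup.map (n := Fin 6)
    (algebraMap ℚ (AlgebraicClosure ℚ))).comp (rhoF u3), ?_⟩
  intro a b hab
  apply h
  apply Units.ext
  ext i j
  have h1 : ((Matrix.GeneralLinearGroup.map (n := Fin 6)
      (algebraMap ℚ (AlgebraicClosure ℚ)) (rhoF u3 a) : GL (Fin 6) (AlgebraicClosure ℚ)) :
        Matrix (Fin 6) (Fin 6) (AlgebraicClosure ℚ)) i j =
      ((Matrix.GeneralLinearGroup.map (n := Fin 6)
      (algebraMap ℚ (AlgebraicClosure ℚ)) (rhoF u3 b) : GL (Fin 6) (AlgebraicClosure ℚ)) :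
        Matrix (Fin 6) (Fin 6) (AlgebraicClosure ℚ)) i j :=
    congrArg (fun g : GL (Fin 6) (AlgebraicClosure ℚ) =>
      (g : Matrix (Fin 6) (Fin 6) (AlgebraicClosure ℚ)) i j) hab
  exact (algebraMap ℚ (AlgebraicClosure ℚ)).injective h1

end Pool.Agent.Results.MP_d585ae_al.BraidFour
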